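import Pool.Agent.Y760.PZ.Vec
import Pool.Agent.TH456.TM.Inst

/-!
# Zeta values at nearby arguments: polynomials with coefficients in the span of measured numbers
-/

set_option autoImplicit false

namespace Pool.Agent.Q151.PZ2

open Finset Pool.Agent.TH883.Zg Pool.Agent.TH456.TM Pool.Agent.Y760.PZ

/-- combinations `∑ θ_i P_i(ζ(s_1), ..., ζ(s_m))` -/
theorem lin_part {ι : Type} [Fintype ι] (θ : ι → ℝ) (hθ : LM θ) (m d : ℕ)
    (r : Fin m → ℕ) (hr : ∀ i, 1 ≤ r i) :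
    ∃ ε B C : ℝ, 0 < ε ∧ 1 < B ∧ 1 < C ∧ ∃ n0 : ℕ, ∀ n : ℕ, n0 ≤ n → ∀ s : Fin m → ℕ,
      Function.Injective s → (∀ i, r i * n ≤ s i ∧ (s i : ℝ) ≤ (r i + ε) * n) →
      ∀ P : ι → MvPolynomial (Fin m) ℤ, P ≠ 0 → (∀ i, (P i).totalDegree ≤ d) →
      (∀ i e, |(((P i).coeff e : ℤ) : ℝ)| ≤ C ^ n) →
      (B ^ n)⁻¹ < |∑ i, θ i * MvPolynomial.aeval
        (fun j => ∑' k : ℕ, 1 / ((k : ℝ) + 1) ^ (s j)) (P i)| := by
  classical
  obtain ⟨ε, B, C, hε, hB, hC, n0, h⟩ := zeta_v θ hθ r hr d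
  refine ⟨ε, B, C, hε, hB, hC, n0, fun n hn s hs hsr P hP hPd hPC => ?_⟩
  have h1 := h n hn s hs hsr (fun e i => (P i).coeff (exq e)) (by
    intro h0
    apply hP
    funext i
    ext e
    rw [Pi.zero_apply, MvPolynomial.coeff_zero]
    by_contra hne
    obtain ⟨e', he'⟩ := exq_surj (hPd i) (MvPolynomial.mem_support_iff.2 hne)
    apply hne
    rw [← he']
    exact congrFun (congrFun h0 e') i) (fun e i => hPC i _)
  have h2 : ∑ i, θ i * MvPolynomial.aeval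
      (fun j => ∑' k : ℕ, 1 / ((k : ℝ) + 1) ^ (s j)) (P i) =
      ∑ e : Fin m → Fin (d + 1), (∑ i, (((P i).coeff (exq e) : ℤ) : ℝ) * θ i) *
        ∏ j, (∑' k : ℕ, 1 / ((k : ℝ) + 1) ^ (s j)) ^ ((e j : Fin (d + 1)) : ℕ) := by
    simp_rw [sum_mul]
    rw [sum_comm]
    refine sum_congr rfl fun i _ => ?_
    rw [eval_exq' (hPd i), mul_sum]
    refine sum_congr rfl fun e _ => ?_
    ring
  rw [h2]
  exact h1

/-- polynomials in a number with a transcendence measure and in zeta values -/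
theorem poly_part (θ : ℝ) (hθ : MeasT (θ : ℂ)) (m d : ℕ) (r : Fin m → ℕ) (hr : ∀ i, 1 ≤ r i) :
    ∃ ε B C : ℝ, 0 < ε ∧ 1 < B ∧ 1 < C ∧ ∃ n0 : ℕ, ∀ n : ℕ, n0 ≤ n → ∀ s : Fin m → ℕ,
      Function.Injective s → (∀ i, r i * n ≤ s i ∧ (s i : ℝ) ≤ (r i + ε) * n) →
      ∀ P : MvPolynomial (Fin (m + 1)) ℤ, P ≠ 0 → P.totalDegree ≤ d →
      (∀ e, |((P.coeff e : ℤ) : ℝ)| ≤ C ^ n) →
      (B ^ n)⁻¹ < |MvPolynomial.aeval
        (Fin.cons θ (fun j => ∑' k : ℕ, 1 / ((k : ℝ) + 1) ^ (s j)) : Fin (m + 1) → ℝ) P| := by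
  classical
  obtain ⟨ε, B, C, hε, hB, hC, n0, h⟩ := zeta_v (fun i : Fin (d + 1) => θ ^ (i : ℕ)) (LM_pow hθ d)
    r hr d
  refine ⟨ε, B, C, hε, hB, hC, n0, fun n hn s hs hsr P hP hPd hPC => ?_⟩
  have h1 := h n hn s hs hsr
    (fun e i => P.coeff (exq (Fin.cons i e : Fin (m + 1) → Fin (d + 1)))) (by
    intro h0
    apply hP
    ext e
    rw [MvPolynomial.coeff_zero]
    by_contra hne
    obtain ⟨e', he'⟩ := exq_surj hPd (MvPolynomial.mem_support_iff.2 hne)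
    apply hne
    rw [← he']
    have h3 := congrFun (congrFun h0 (Fin.tail e')) (e' 0)
    simp only [Pi.zero_apply] at h3
    rwa [Fin.cons_self_tail] at h3) (fun e i => hPC _)
  have h2 : MvPolynomial.aeval
        (Fin.cons θ (fun j => ∑' k : ℕ, 1 / ((k : ℝ) + 1) ^ (s j)) : Fin (m + 1) → ℝ) P =
      ∑ e : Fin m → Fin (d + 1), (∑ i : Fin (d + 1),
        ((P.coeff (exq (Fin.cons i e : Fin (m + 1) → Fin (d + 1))) : ℤ) : ℝ) * θ ^ (i : ℕ)) *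
        ∏ j, (∑' k : ℕ, 1 / ((k : ℝ) + 1) ^ (s j)) ^ ((e j : Fin (d + 1)) : ℕ) := by
    rw [eval_exq' hPd, ← (Fin.consEquiv fun _ => Fin (d + 1)).sum_comp, Fintype.sum_prod_type, sum_comm]
    refine sum_congr rfl fun e _ => ?_
    rw [sum_mul]
    refine sum_congr rfl fun i _ => ?_
    have h4 : (Fin.consEquiv fun _ => Fin (d + 1)) (i, e) =
        (Fin.cons i e : Fin (m + 1) → Fin (d + 1)) := rfl
    rw [h4, Fin.prod_univ_succ]
    simp only [Fin.cons_zero, Fin.cons_succ]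
    ring
  rw [h2]
  exact h1

end Pool.Agent.Q151.PZ2
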